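import Mathlib
import Pool.Agent.Lead.Wedge3

set_option autoImplicit false
set_option linter.unusedSimpArgs false
set_option linter.unusedSectionVars false
set_option linter.unnecessarySeqFocus false
set_option linter.unusedTactic false
set_option linter.unreachableTactic false

namespace Pool.Agent.Results.MP_7bb607_co.Counter

open ExteriorAlgebra Pool.Agent.Lead.Wedge3

section Generic
variable {V A : Type} [Fintype V] [LinearOrder V] [Ring A] [Algebra ℝ A]

/-- `dim (Z / B)`. -/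
noncomputable def quotDim {M : Type} [AddCommGroup M] [Module ℝ M] (Z B : Submodule ℝ M) : ℕ :=
  Module.finrank ℝ (Z ⧸ B.submoduleOf Z)

/-- `σ̄`, the product of the points `x v` of `σ` (in increasing order; `1` for the empty face). -/
noncomputable def gbar (x : V → A) (σ : Finset V) : A := ((σ.sort (· ≤ ·)).map x).prod

/-- Representatives of chains on the faces with `j` vertices (dimension `i = j - 1`):
a coefficient in `G (r-j) = Λ^{r-1-i} W` on each such face, `0` on every other set. -/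
noncomputable def glifted (Δ : Finset (Finset V)) (G : ℕ → Submodule ℝ A) (r j : ℕ) :
    Submodule ℝ (Finset V → A) :=
  Submodule.pi Set.univ fun σ => if σ ∈ Δ ∧ σ.card = j ∧ j ≤ r then G (r - j) else ⊥

/-- Representatives of the zero chain: `c_σ ∧ σ̄ = 0` for every `σ`. -/
noncomputable def gnull (x : V → A) : Submodule ℝ (Finset V → A) :=
  Submodule.pi Set.univ fun σ => LinearMap.ker (LinearMap.mulRight ℝ (gbar x σ))

/-- The boundary on representatives: `c·σ ↦ ∑_{v ∈ σ} (c ∧ x_v)·(σ \\ v)`, i.e. the coefficient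
on `τ` is `∑_{v ∉ τ} c_{τ ∪ v} ∧ x_v`. -/
noncomputable def gbdry (x : V → A) : (Finset V → A) →ₗ[ℝ] (Finset V → A) :=
  LinearMap.pi fun τ => ∑ v ∈ τᶜ, LinearMap.mulRight ℝ (x v) ∘ₗ LinearMap.proj (insert v τ)

/-- Representatives of cycles. -/
noncomputable def gcycles (Δ : Finset (Finset V)) (G : ℕ → Submodule ℝ A) (r : ℕ) (x : V → A)
    (j : ℕ) : Submodule ℝ (Finset V → A) :=
  glifted Δ G r j ⊓ (gnull x).comap (gbdry x)

/-- Representatives of boundaries. -/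
noncomputable def gboundaries (Δ : Finset (Finset V)) (G : ℕ → Submodule ℝ A) (r : ℕ) (x : V → A)
    (j : ℕ) : Submodule ℝ (Finset V → A) :=
  (glifted Δ G r j ⊓ gnull x) ⊔ (glifted Δ G r (j + 1)).map (gbdry x)

/-- Dimension of cycles modulo boundaries on faces with `j` vertices. -/
noncomputable def gbetti (Δ : Finset (Finset V)) (G : ℕ → Submodule ℝ A) (r : ℕ) (x : V → A)
    (j : ℕ) : ℕ :=
  quotDim (gcycles Δ G r x j) (gboundaries Δ G r x j)

end Generic

section Defs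
variable {V : Type} [Fintype V] [LinearOrder V] {d : ℕ}

/-- Homogeneous coordinates `(p_v, 1)`. -/
def hom (p : V → Fin d → ℝ) (v : V) : Fin (d + 1) → ℝ := Fin.snoc (α := fun _ => ℝ) (p v) 1

/-- Vertical projection: forget the last coordinate. -/
def proj (p : V → Fin (d + 1) → ℝ) (v : V) : Fin d → ℝ := Fin.init (α := fun _ => ℝ) (p v)

/-- Skeletal Betti number for points `y v` of a vector space `W`, computed in `Λ W`. -/
noncomputable def extBetti {W : Type} [AddCommGroup W] [Module ℝ W] (Δ : Finset (Finset V))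
    (r : ℕ) (y : V → W) (j : ℕ) : ℕ :=
  gbetti Δ (fun k => ⋀[ℝ]^k W) r (fun v => ι ℝ (y v)) j

/-- `betti Δ r p j = β_{j-1}(R_{d,r}(Δ; p̄))`, with `W = ℝ^{d+1}`. -/
noncomputable def betti (Δ : Finset (Finset V)) (r : ℕ) (p : V → Fin d → ℝ) (j : ℕ) : ℕ :=
  extBetti Δ r (hom p) j

abbrev Ext (d : ℕ) := ExteriorAlgebra ℝ (Fin (d + 1) → ℝ)
noncomputable def bar (p : V → Fin d → ℝ) (σ : Finset V) : Ext d :=
  gbar (fun v => ι ℝ (hom p v)) σ
noncomputable def lifted (Δ : Finset (Finset V)) (d r j : ℕ) : Submodule ℝ (Finset V → Ext d) :=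
  glifted Δ (fun k => ⋀[ℝ]^k (Fin (d + 1) → ℝ)) r j
noncomputable def null (p : V → Fin d → ℝ) : Submodule ℝ (Finset V → Ext d) :=
  gnull (fun v => ι ℝ (hom p v))
noncomputable def bdry (p : V → Fin d → ℝ) : (Finset V → Ext d) →ₗ[ℝ] (Finset V → Ext d) :=
  gbdry (fun v => ι ℝ (hom p v))
noncomputable def cycles (Δ : Finset (Finset V)) (r : ℕ) (p : V → Fin d → ℝ) (j : ℕ) :
    Submodule ℝ (Finset V → Ext d) :=
  lifted Δ d r j ⊓ (null p).comap (bdry p)
noncomputable def boundaries (Δ : Finset (Finset V)) (r : ℕ) (p : V → Fin d → ℝ) (j : ℕ) :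
    Submodule ℝ (Finset V → Ext d) :=
  (lifted Δ d r j ⊓ null p) ⊔ (lifted Δ d r (j + 1)).map (bdry p)

theorem betti_eq (Δ : Finset (Finset V)) (r : ℕ) (p : V → Fin d → ℝ) (j : ℕ) : betti Δ r p j =
    Module.finrank ℝ (cycles Δ r p j ⧸ (boundaries Δ r p j).submoduleOf (cycles Δ r p j)) := rfl

theorem bdry_apply (p : V → Fin d → ℝ) (f : Finset V → Ext d) (τ : Finset V) :
    bdry p f τ = ∑ x, if x ∈ τ then 0 else f (insert x τ) * ι ℝ (hom p x) := by
  simp only [bdry, gbdry, LinearMap.pi_apply, LinearMap.sum_apply, LinearMap.comp_apply,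
    LinearMap.proj_apply, LinearMap.mulRight_apply]
  rw [← Finset.sum_subset (Finset.subset_univ τᶜ)]
  · exact Finset.sum_congr rfl fun x hx => by rw [if_neg (Finset.mem_compl.1 hx)]
  · intro x _ hx; rw [if_pos (by simpa using hx)]

theorem bar_one (p : V → Fin d → ℝ) (a : V) : bar p {a} = ι ℝ (hom p a) := by
  simp [bar, gbar]

theorem bar_two (p : V → Fin d → ℝ) (a b : V) (h : a < b) :
    bar p {a, b} = ι ℝ (hom p a) * ι ℝ (hom p b) := by
  unfold bar gbar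
  rw [Finset.sort_insert _ (by simpa using h.le) (by simpa using h.ne)]
  simp

theorem mem_null (p : V → Fin d → ℝ) (f : Finset V → Ext d) :
    f ∈ null p ↔ ∀ σ, f σ * bar p σ = 0 := by
  simp [null, gnull, bar, Submodule.mem_pi]

theorem mem_lifted (Δ : Finset (Finset V)) (r j : ℕ) (f : Finset V → Ext d) :
    f ∈ lifted Δ d r j ↔ ∀ σ, ((σ ∈ Δ ∧ σ.card = j ∧ j ≤ r) → f σ ∈ ⋀[ℝ]^(r - j) (Fin (d + 1) → ℝ))
      ∧ (¬ (σ ∈ Δ ∧ σ.card = j ∧ j ≤ r) → f σ = 0) := by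
  simp only [lifted, glifted, Submodule.mem_pi, Set.mem_univ, true_imp_iff]
  refine forall_congr' fun σ => ?_
  split_ifs with h
  · exact ⟨fun a => ⟨fun _ => a, fun b => (b h).elim⟩, fun a => a.1 h⟩
  · exact ⟨fun a => ⟨fun b => (h b).elim, fun _ => a⟩, fun a => a.2 h⟩

instance (Δ : Finset (Finset V)) (r j : ℕ) : Module.Finite ℝ (lifted Δ d r j) := by
  rw [Module.Finite.iff_fg]
  unfold lifted glifted
  apply Submodule.fg_pi
  intro σ
  split_ifs
  · exact Module.Finite.iff_fg.1 inferInstance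
  · exact Submodule.fg_bot

end Defs

def Δ : Finset (Finset (Fin 8)) := Finset.univ.filter fun σ =>
  σ ⊆ {0, 1, 4} ∨ σ ⊆ {1, 2, 5} ∨ σ ⊆ {2, 3, 6} ∨ σ ⊆ {0, 3, 7}

theorem mem_Δ (σ : Finset (Fin 8)) :
    σ ∈ Δ ↔ σ ⊆ {0, 1, 4} ∨ σ ⊆ {1, 2, 5} ∨ σ ⊆ {2, 3, 6} ∨ σ ⊆ {0, 3, 7} := by simp [Δ]

def P : Fin 8 → Fin 3 → ℝ :=
  ![![0,0,0], ![1,0,0], ![1,1,1], ![0,1,0], ![0,-1,0], ![2,0,0], ![1,2,0], ![-1,1,0]]

theorem hP : hom P = ![![0,0,0,1], ![1,0,0,1], ![1,1,1,1], ![0,1,0,1], ![0,-1,0,1], ![2,0,0,1],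
    ![1,2,0,1], ![-1,1,0,1]] := by
  funext v i; fin_cases v <;> fin_cases i <;> rfl

theorem hQ : hom (proj P) = ![![0,0,1], ![1,0,1], ![1,1,1], ![0,1,1], ![0,-1,1], ![2,0,1],
    ![1,2,1], ![-1,1,1]] := by
  funext v i; fin_cases v <;> fin_cases i <;> rfl

theorem edges (σ : Finset (Fin 8)) (h : σ ∈ Δ) (h2 : σ.card = 2) :
    σ = {0,1} ∨ σ = {0,4} ∨ σ = {1,4} ∨ σ = {1,2} ∨ σ = {1,5} ∨ σ = {2,5} ∨ σ = {2,3} ∨ σ = {2,6}
      ∨ σ = {3,6} ∨ σ = {0,3} ∨ σ = {0,7} ∨ σ = {3,7} := by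
  rw [mem_Δ] at h
  revert σ; decide +kernel

theorem lifted_bdry {d : ℕ} (p : Fin 8 → Fin d → ℝ) (g : Finset (Fin 8) → Ext d)
    (hg : g ∈ lifted Δ d 3 3) : bdry p g ∈ lifted Δ d 3 2 := by
  rw [mem_lifted] at hg ⊢
  intro τ
  rw [bdry_apply]
  constructor
  · intro _
    refine Submodule.sum_mem _ fun x _ => ?_
    split_ifs with hx
    · exact Submodule.zero_mem _
    · by_cases h : (insert x τ ∈ Δ ∧ (insert x τ).card = 3 ∧ 3 ≤ 3)
      · have := (hg _).1 h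
        simp only [Nat.sub_self, pow_zero, Submodule.mem_one] at this
        obtain ⟨t, ht⟩ := this
        rw [← ht, ← Algebra.smul_def]
        refine Submodule.smul_mem _ _ ?_
        simp
      · rw [(hg _).2 h, zero_mul]; exact Submodule.zero_mem _
  · intro hτ
    refine Finset.sum_eq_zero fun x _ => ?_
    split_ifs with hx
    · rfl
    · rw [(hg _).2, zero_mul]
      rintro ⟨h1, h2, _⟩
      apply hτ
      rw [Finset.card_insert_of_notMem hx] at h2
      refine ⟨?_, by omega, by omega⟩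
      rw [mem_Δ] at h1 ⊢
      have hs := Finset.subset_insert x τ
      rcases h1 with h | h | h | h
      · exact Or.inl (hs.trans h)
      · exact Or.inr (Or.inl (hs.trans h))
      · exact Or.inr (Or.inr (Or.inl (hs.trans h)))
      · exact Or.inr (Or.inr (Or.inr (hs.trans h)))


theorem vert0 {d : ℕ} (p : Fin 8 → Fin d → ℝ) (f : Finset (Fin 8) → Ext d)
    (hf : f ∈ lifted Δ d 3 2) : bdry p f {0} * bar p {0} = f {0, 1} * (ι ℝ (hom p 1) * ι ℝ (hom p 0)) + f {0, 3} * (ι ℝ (hom p 3) * ι ℝ (hom p 0)) + f {0, 4} * (ι ℝ (hom p 4) * ι ℝ (hom p 0)) + f {0, 7} * (ι ℝ (hom p 7) * ι ℝ (hom p 0)) := by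
  rw [mem_lifted] at hf
  rw [bdry_apply, bar_one, Fin.sum_univ_eight]
  rw [if_pos (show (0 : Fin 8) ∈ ({0} : Finset (Fin 8)) by decide),
    if_neg (show ¬ (1 : Fin 8) ∈ ({0} : Finset (Fin 8)) by decide),
    (show (insert 1 {0} : Finset (Fin 8)) = {0, 1} by decide),
    if_neg (show ¬ (2 : Fin 8) ∈ ({0} : Finset (Fin 8)) by decide),
    (hf (insert 2 {0})).2 (by decide),
    if_neg (show ¬ (3 : Fin 8) ∈ ({0} : Finset (Fin 8)) by decide),
    (show (insert 3 {0} : Finset (Fin 8)) = {0, 3} by decide),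
    if_neg (show ¬ (4 : Fin 8) ∈ ({0} : Finset (Fin 8)) by decide),
    (show (insert 4 {0} : Finset (Fin 8)) = {0, 4} by decide),
    if_neg (show ¬ (5 : Fin 8) ∈ ({0} : Finset (Fin 8)) by decide),
    (hf (insert 5 {0})).2 (by decide),
    if_neg (show ¬ (6 : Fin 8) ∈ ({0} : Finset (Fin 8)) by decide),
    (hf (insert 6 {0})).2 (by decide),
    if_neg (show ¬ (7 : Fin 8) ∈ ({0} : Finset (Fin 8)) by decide),
    (show (insert 7 {0} : Finset (Fin 8)) = {0, 7} by decide)]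
  simp only [zero_mul, add_zero, zero_add, add_mul, mul_assoc]

theorem vert1 {d : ℕ} (p : Fin 8 → Fin d → ℝ) (f : Finset (Fin 8) → Ext d)
    (hf : f ∈ lifted Δ d 3 2) : bdry p f {1} * bar p {1} = f {0, 1} * (ι ℝ (hom p 0) * ι ℝ (hom p 1)) + f {1, 2} * (ι ℝ (hom p 2) * ι ℝ (hom p 1)) + f {1, 4} * (ι ℝ (hom p 4) * ι ℝ (hom p 1)) + f {1, 5} * (ι ℝ (hom p 5) * ι ℝ (hom p 1)) := by
  rw [mem_lifted] at hf
  rw [bdry_apply, bar_one, Fin.sum_univ_eight]
  rw [if_neg (show ¬ (0 : Fin 8) ∈ ({1} : Finset (Fin 8)) by decide),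
    if_pos (show (1 : Fin 8) ∈ ({1} : Finset (Fin 8)) by decide),
    if_neg (show ¬ (2 : Fin 8) ∈ ({1} : Finset (Fin 8)) by decide),
    (show (insert 2 {1} : Finset (Fin 8)) = {1, 2} by decide),
    if_neg (show ¬ (3 : Fin 8) ∈ ({1} : Finset (Fin 8)) by decide),
    (hf (insert 3 {1})).2 (by decide),
    if_neg (show ¬ (4 : Fin 8) ∈ ({1} : Finset (Fin 8)) by decide),
    (show (insert 4 {1} : Finset (Fin 8)) = {1, 4} by decide),
    if_neg (show ¬ (5 : Fin 8) ∈ ({1} : Finset (Fin 8)) by decide),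
    (show (insert 5 {1} : Finset (Fin 8)) = {1, 5} by decide),
    if_neg (show ¬ (6 : Fin 8) ∈ ({1} : Finset (Fin 8)) by decide),
    (hf (insert 6 {1})).2 (by decide),
    if_neg (show ¬ (7 : Fin 8) ∈ ({1} : Finset (Fin 8)) by decide),
    (hf (insert 7 {1})).2 (by decide)]
  simp only [zero_mul, add_zero, zero_add, add_mul, mul_assoc]

theorem vert2 {d : ℕ} (p : Fin 8 → Fin d → ℝ) (f : Finset (Fin 8) → Ext d)
    (hf : f ∈ lifted Δ d 3 2) : bdry p f {2} * bar p {2} = f {1, 2} * (ι ℝ (hom p 1) * ι ℝ (hom p 2)) + f {2, 3} * (ι ℝ (hom p 3) * ι ℝ (hom p 2)) + f {2, 5} * (ι ℝ (hom p 5) * ι ℝ (hom p 2)) + f {2, 6} * (ι ℝ (hom p 6) * ι ℝ (hom p 2)) := by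
  rw [mem_lifted] at hf
  rw [bdry_apply, bar_one, Fin.sum_univ_eight]
  rw [if_neg (show ¬ (0 : Fin 8) ∈ ({2} : Finset (Fin 8)) by decide),
    (hf (insert 0 {2})).2 (by decide),
    if_neg (show ¬ (1 : Fin 8) ∈ ({2} : Finset (Fin 8)) by decide),
    if_pos (show (2 : Fin 8) ∈ ({2} : Finset (Fin 8)) by decide),
    if_neg (show ¬ (3 : Fin 8) ∈ ({2} : Finset (Fin 8)) by decide),
    (show (insert 3 {2} : Finset (Fin 8)) = {2, 3} by decide),
    if_neg (show ¬ (4 : Fin 8) ∈ ({2} : Finset (Fin 8)) by decide),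
    (hf (insert 4 {2})).2 (by decide),
    if_neg (show ¬ (5 : Fin 8) ∈ ({2} : Finset (Fin 8)) by decide),
    (show (insert 5 {2} : Finset (Fin 8)) = {2, 5} by decide),
    if_neg (show ¬ (6 : Fin 8) ∈ ({2} : Finset (Fin 8)) by decide),
    (show (insert 6 {2} : Finset (Fin 8)) = {2, 6} by decide),
    if_neg (show ¬ (7 : Fin 8) ∈ ({2} : Finset (Fin 8)) by decide),
    (hf (insert 7 {2})).2 (by decide)]
  simp only [zero_mul, add_zero, zero_add, add_mul, mul_assoc]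

theorem vert3 {d : ℕ} (p : Fin 8 → Fin d → ℝ) (f : Finset (Fin 8) → Ext d)
    (hf : f ∈ lifted Δ d 3 2) : bdry p f {3} * bar p {3} = f {0, 3} * (ι ℝ (hom p 0) * ι ℝ (hom p 3)) + f {2, 3} * (ι ℝ (hom p 2) * ι ℝ (hom p 3)) + f {3, 6} * (ι ℝ (hom p 6) * ι ℝ (hom p 3)) + f {3, 7} * (ι ℝ (hom p 7) * ι ℝ (hom p 3)) := by
  rw [mem_lifted] at hf
  rw [bdry_apply, bar_one, Fin.sum_univ_eight]
  rw [if_neg (show ¬ (0 : Fin 8) ∈ ({3} : Finset (Fin 8)) by decide),
    if_neg (show ¬ (1 : Fin 8) ∈ ({3} : Finset (Fin 8)) by decide),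
    (hf (insert 1 {3})).2 (by decide),
    if_neg (show ¬ (2 : Fin 8) ∈ ({3} : Finset (Fin 8)) by decide),
    if_pos (show (3 : Fin 8) ∈ ({3} : Finset (Fin 8)) by decide),
    if_neg (show ¬ (4 : Fin 8) ∈ ({3} : Finset (Fin 8)) by decide),
    (hf (insert 4 {3})).2 (by decide),
    if_neg (show ¬ (5 : Fin 8) ∈ ({3} : Finset (Fin 8)) by decide),
    (hf (insert 5 {3})).2 (by decide),
    if_neg (show ¬ (6 : Fin 8) ∈ ({3} : Finset (Fin 8)) by decide),
    (show (insert 6 {3} : Finset (Fin 8)) = {3, 6} by decide),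
    if_neg (show ¬ (7 : Fin 8) ∈ ({3} : Finset (Fin 8)) by decide),
    (show (insert 7 {3} : Finset (Fin 8)) = {3, 7} by decide)]
  simp only [zero_mul, add_zero, zero_add, add_mul, mul_assoc]

theorem vert4 {d : ℕ} (p : Fin 8 → Fin d → ℝ) (f : Finset (Fin 8) → Ext d)
    (hf : f ∈ lifted Δ d 3 2) : bdry p f {4} * bar p {4} = f {0, 4} * (ι ℝ (hom p 0) * ι ℝ (hom p 4)) + f {1, 4} * (ι ℝ (hom p 1) * ι ℝ (hom p 4)) := by
  rw [mem_lifted] at hf
  rw [bdry_apply, bar_one, Fin.sum_univ_eight]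
  rw [if_neg (show ¬ (0 : Fin 8) ∈ ({4} : Finset (Fin 8)) by decide),
    if_neg (show ¬ (1 : Fin 8) ∈ ({4} : Finset (Fin 8)) by decide),
    if_neg (show ¬ (2 : Fin 8) ∈ ({4} : Finset (Fin 8)) by decide),
    (hf (insert 2 {4})).2 (by decide),
    if_neg (show ¬ (3 : Fin 8) ∈ ({4} : Finset (Fin 8)) by decide),
    (hf (insert 3 {4})).2 (by decide),
    if_pos (show (4 : Fin 8) ∈ ({4} : Finset (Fin 8)) by decide),
    if_neg (show ¬ (5 : Fin 8) ∈ ({4} : Finset (Fin 8)) by decide),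
    (hf (insert 5 {4})).2 (by decide),
    if_neg (show ¬ (6 : Fin 8) ∈ ({4} : Finset (Fin 8)) by decide),
    (hf (insert 6 {4})).2 (by decide),
    if_neg (show ¬ (7 : Fin 8) ∈ ({4} : Finset (Fin 8)) by decide),
    (hf (insert 7 {4})).2 (by decide)]
  simp only [zero_mul, add_zero, zero_add, add_mul, mul_assoc]

theorem vert5 {d : ℕ} (p : Fin 8 → Fin d → ℝ) (f : Finset (Fin 8) → Ext d)
    (hf : f ∈ lifted Δ d 3 2) : bdry p f {5} * bar p {5} = f {1, 5} * (ι ℝ (hom p 1) * ι ℝ (hom p 5)) + f {2, 5} * (ι ℝ (hom p 2) * ι ℝ (hom p 5)) := by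
  rw [mem_lifted] at hf
  rw [bdry_apply, bar_one, Fin.sum_univ_eight]
  rw [if_neg (show ¬ (0 : Fin 8) ∈ ({5} : Finset (Fin 8)) by decide),
    (hf (insert 0 {5})).2 (by decide),
    if_neg (show ¬ (1 : Fin 8) ∈ ({5} : Finset (Fin 8)) by decide),
    if_neg (show ¬ (2 : Fin 8) ∈ ({5} : Finset (Fin 8)) by decide),
    if_neg (show ¬ (3 : Fin 8) ∈ ({5} : Finset (Fin 8)) by decide),
    (hf (insert 3 {5})).2 (by decide),
    if_neg (show ¬ (4 : Fin 8) ∈ ({5} : Finset (Fin 8)) by decide),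
    (hf (insert 4 {5})).2 (by decide),
    if_pos (show (5 : Fin 8) ∈ ({5} : Finset (Fin 8)) by decide),
    if_neg (show ¬ (6 : Fin 8) ∈ ({5} : Finset (Fin 8)) by decide),
    (hf (insert 6 {5})).2 (by decide),
    if_neg (show ¬ (7 : Fin 8) ∈ ({5} : Finset (Fin 8)) by decide),
    (hf (insert 7 {5})).2 (by decide)]
  simp only [zero_mul, add_zero, zero_add, add_mul, mul_assoc]

theorem vert6 {d : ℕ} (p : Fin 8 → Fin d → ℝ) (f : Finset (Fin 8) → Ext d)
    (hf : f ∈ lifted Δ d 3 2) : bdry p f {6} * bar p {6} = f {2, 6} * (ι ℝ (hom p 2) * ι ℝ (hom p 6)) + f {3, 6} * (ι ℝ (hom p 3) * ι ℝ (hom p 6)) := by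
  rw [mem_lifted] at hf
  rw [bdry_apply, bar_one, Fin.sum_univ_eight]
  rw [if_neg (show ¬ (0 : Fin 8) ∈ ({6} : Finset (Fin 8)) by decide),
    (hf (insert 0 {6})).2 (by decide),
    if_neg (show ¬ (1 : Fin 8) ∈ ({6} : Finset (Fin 8)) by decide),
    (hf (insert 1 {6})).2 (by decide),
    if_neg (show ¬ (2 : Fin 8) ∈ ({6} : Finset (Fin 8)) by decide),
    if_neg (show ¬ (3 : Fin 8) ∈ ({6} : Finset (Fin 8)) by decide),
    if_neg (show ¬ (4 : Fin 8) ∈ ({6} : Finset (Fin 8)) by decide),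
    (hf (insert 4 {6})).2 (by decide),
    if_neg (show ¬ (5 : Fin 8) ∈ ({6} : Finset (Fin 8)) by decide),
    (hf (insert 5 {6})).2 (by decide),
    if_pos (show (6 : Fin 8) ∈ ({6} : Finset (Fin 8)) by decide),
    if_neg (show ¬ (7 : Fin 8) ∈ ({6} : Finset (Fin 8)) by decide),
    (hf (insert 7 {6})).2 (by decide)]
  simp only [zero_mul, add_zero, zero_add, add_mul, mul_assoc]

theorem vert7 {d : ℕ} (p : Fin 8 → Fin d → ℝ) (f : Finset (Fin 8) → Ext d)
    (hf : f ∈ lifted Δ d 3 2) : bdry p f {7} * bar p {7} = f {0, 7} * (ι ℝ (hom p 0) * ι ℝ (hom p 7)) + f {3, 7} * (ι ℝ (hom p 3) * ι ℝ (hom p 7)) := by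
  rw [mem_lifted] at hf
  rw [bdry_apply, bar_one, Fin.sum_univ_eight]
  rw [if_neg (show ¬ (0 : Fin 8) ∈ ({7} : Finset (Fin 8)) by decide),
    if_neg (show ¬ (1 : Fin 8) ∈ ({7} : Finset (Fin 8)) by decide),
    (hf (insert 1 {7})).2 (by decide),
    if_neg (show ¬ (2 : Fin 8) ∈ ({7} : Finset (Fin 8)) by decide),
    (hf (insert 2 {7})).2 (by decide),
    if_neg (show ¬ (3 : Fin 8) ∈ ({7} : Finset (Fin 8)) by decide),
    if_neg (show ¬ (4 : Fin 8) ∈ ({7} : Finset (Fin 8)) by decide),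
    (hf (insert 4 {7})).2 (by decide),
    if_neg (show ¬ (5 : Fin 8) ∈ ({7} : Finset (Fin 8)) by decide),
    (hf (insert 5 {7})).2 (by decide),
    if_neg (show ¬ (6 : Fin 8) ∈ ({7} : Finset (Fin 8)) by decide),
    (hf (insert 6 {7})).2 (by decide),
    if_pos (show (7 : Fin 8) ∈ ({7} : Finset (Fin 8)) by decide)]
  simp only [zero_mul, add_zero, zero_add, add_mul, mul_assoc]

theorem edge14 {d : ℕ} (p : Fin 8 → Fin d → ℝ) (f : Finset (Fin 8) → Ext d)
    (hf : f ∈ lifted Δ d 3 3) : bdry p f {1, 4} = f {0, 1, 4} * ι ℝ (hom p 0) := by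
  rw [mem_lifted] at hf
  rw [bdry_apply, Fin.sum_univ_eight]
  rw [if_neg (show ¬ (0 : Fin 8) ∈ ({1, 4} : Finset (Fin 8)) by decide),
    if_pos (show (1 : Fin 8) ∈ ({1, 4} : Finset (Fin 8)) by decide),
    if_neg (show ¬ (2 : Fin 8) ∈ ({1, 4} : Finset (Fin 8)) by decide),
    (hf (insert 2 {1, 4})).2 (by decide),
    if_neg (show ¬ (3 : Fin 8) ∈ ({1, 4} : Finset (Fin 8)) by decide),
    (hf (insert 3 {1, 4})).2 (by decide),
    if_pos (show (4 : Fin 8) ∈ ({1, 4} : Finset (Fin 8)) by decide),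
    if_neg (show ¬ (5 : Fin 8) ∈ ({1, 4} : Finset (Fin 8)) by decide),
    (hf (insert 5 {1, 4})).2 (by decide),
    if_neg (show ¬ (6 : Fin 8) ∈ ({1, 4} : Finset (Fin 8)) by decide),
    (hf (insert 6 {1, 4})).2 (by decide),
    if_neg (show ¬ (7 : Fin 8) ∈ ({1, 4} : Finset (Fin 8)) by decide),
    (hf (insert 7 {1, 4})).2 (by decide)]
  simp only [zero_mul, add_zero, zero_add]

theorem edge04 {d : ℕ} (p : Fin 8 → Fin d → ℝ) (f : Finset (Fin 8) → Ext d)
    (hf : f ∈ lifted Δ d 3 3) : bdry p f {0, 4} = f {0, 1, 4} * ι ℝ (hom p 1) := by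
  rw [mem_lifted] at hf
  rw [bdry_apply, Fin.sum_univ_eight]
  rw [if_pos (show (0 : Fin 8) ∈ ({0, 4} : Finset (Fin 8)) by decide),
    if_neg (show ¬ (1 : Fin 8) ∈ ({0, 4} : Finset (Fin 8)) by decide),
    (show (insert 1 {0, 4} : Finset (Fin 8)) = {0, 1, 4} by decide),
    if_neg (show ¬ (2 : Fin 8) ∈ ({0, 4} : Finset (Fin 8)) by decide),
    (hf (insert 2 {0, 4})).2 (by decide),
    if_neg (show ¬ (3 : Fin 8) ∈ ({0, 4} : Finset (Fin 8)) by decide),
    (hf (insert 3 {0, 4})).2 (by decide),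
    if_pos (show (4 : Fin 8) ∈ ({0, 4} : Finset (Fin 8)) by decide),
    if_neg (show ¬ (5 : Fin 8) ∈ ({0, 4} : Finset (Fin 8)) by decide),
    (hf (insert 5 {0, 4})).2 (by decide),
    if_neg (show ¬ (6 : Fin 8) ∈ ({0, 4} : Finset (Fin 8)) by decide),
    (hf (insert 6 {0, 4})).2 (by decide),
    if_neg (show ¬ (7 : Fin 8) ∈ ({0, 4} : Finset (Fin 8)) by decide),
    (hf (insert 7 {0, 4})).2 (by decide)]
  simp only [zero_mul, add_zero, zero_add]

theorem edge01 {d : ℕ} (p : Fin 8 → Fin d → ℝ) (f : Finset (Fin 8) → Ext d)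
    (hf : f ∈ lifted Δ d 3 3) : bdry p f {0, 1} = f {0, 1, 4} * ι ℝ (hom p 4) := by
  rw [mem_lifted] at hf
  rw [bdry_apply, Fin.sum_univ_eight]
  rw [if_pos (show (0 : Fin 8) ∈ ({0, 1} : Finset (Fin 8)) by decide),
    if_pos (show (1 : Fin 8) ∈ ({0, 1} : Finset (Fin 8)) by decide),
    if_neg (show ¬ (2 : Fin 8) ∈ ({0, 1} : Finset (Fin 8)) by decide),
    (hf (insert 2 {0, 1})).2 (by decide),
    if_neg (show ¬ (3 : Fin 8) ∈ ({0, 1} : Finset (Fin 8)) by decide),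
    (hf (insert 3 {0, 1})).2 (by decide),
    if_neg (show ¬ (4 : Fin 8) ∈ ({0, 1} : Finset (Fin 8)) by decide),
    (show (insert 4 {0, 1} : Finset (Fin 8)) = {0, 1, 4} by decide),
    if_neg (show ¬ (5 : Fin 8) ∈ ({0, 1} : Finset (Fin 8)) by decide),
    (hf (insert 5 {0, 1})).2 (by decide),
    if_neg (show ¬ (6 : Fin 8) ∈ ({0, 1} : Finset (Fin 8)) by decide),
    (hf (insert 6 {0, 1})).2 (by decide),
    if_neg (show ¬ (7 : Fin 8) ∈ ({0, 1} : Finset (Fin 8)) by decide),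
    (hf (insert 7 {0, 1})).2 (by decide)]
  simp only [zero_mul, add_zero, zero_add]

theorem edge25 {d : ℕ} (p : Fin 8 → Fin d → ℝ) (f : Finset (Fin 8) → Ext d)
    (hf : f ∈ lifted Δ d 3 3) : bdry p f {2, 5} = f {1, 2, 5} * ι ℝ (hom p 1) := by
  rw [mem_lifted] at hf
  rw [bdry_apply, Fin.sum_univ_eight]
  rw [if_neg (show ¬ (0 : Fin 8) ∈ ({2, 5} : Finset (Fin 8)) by decide),
    (hf (insert 0 {2, 5})).2 (by decide),
    if_neg (show ¬ (1 : Fin 8) ∈ ({2, 5} : Finset (Fin 8)) by decide),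
    if_pos (show (2 : Fin 8) ∈ ({2, 5} : Finset (Fin 8)) by decide),
    if_neg (show ¬ (3 : Fin 8) ∈ ({2, 5} : Finset (Fin 8)) by decide),
    (hf (insert 3 {2, 5})).2 (by decide),
    if_neg (show ¬ (4 : Fin 8) ∈ ({2, 5} : Finset (Fin 8)) by decide),
    (hf (insert 4 {2, 5})).2 (by decide),
    if_pos (show (5 : Fin 8) ∈ ({2, 5} : Finset (Fin 8)) by decide),
    if_neg (show ¬ (6 : Fin 8) ∈ ({2, 5} : Finset (Fin 8)) by decide),
    (hf (insert 6 {2, 5})).2 (by decide),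
    if_neg (show ¬ (7 : Fin 8) ∈ ({2, 5} : Finset (Fin 8)) by decide),
    (hf (insert 7 {2, 5})).2 (by decide)]
  simp only [zero_mul, add_zero, zero_add]

theorem edge15 {d : ℕ} (p : Fin 8 → Fin d → ℝ) (f : Finset (Fin 8) → Ext d)
    (hf : f ∈ lifted Δ d 3 3) : bdry p f {1, 5} = f {1, 2, 5} * ι ℝ (hom p 2) := by
  rw [mem_lifted] at hf
  rw [bdry_apply, Fin.sum_univ_eight]
  rw [if_neg (show ¬ (0 : Fin 8) ∈ ({1, 5} : Finset (Fin 8)) by decide),
    (hf (insert 0 {1, 5})).2 (by decide),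
    if_pos (show (1 : Fin 8) ∈ ({1, 5} : Finset (Fin 8)) by decide),
    if_neg (show ¬ (2 : Fin 8) ∈ ({1, 5} : Finset (Fin 8)) by decide),
    (show (insert 2 {1, 5} : Finset (Fin 8)) = {1, 2, 5} by decide),
    if_neg (show ¬ (3 : Fin 8) ∈ ({1, 5} : Finset (Fin 8)) by decide),
    (hf (insert 3 {1, 5})).2 (by decide),
    if_neg (show ¬ (4 : Fin 8) ∈ ({1, 5} : Finset (Fin 8)) by decide),
    (hf (insert 4 {1, 5})).2 (by decide),
    if_pos (show (5 : Fin 8) ∈ ({1, 5} : Finset (Fin 8)) by decide),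
    if_neg (show ¬ (6 : Fin 8) ∈ ({1, 5} : Finset (Fin 8)) by decide),
    (hf (insert 6 {1, 5})).2 (by decide),
    if_neg (show ¬ (7 : Fin 8) ∈ ({1, 5} : Finset (Fin 8)) by decide),
    (hf (insert 7 {1, 5})).2 (by decide)]
  simp only [zero_mul, add_zero, zero_add]

theorem edge12 {d : ℕ} (p : Fin 8 → Fin d → ℝ) (f : Finset (Fin 8) → Ext d)
    (hf : f ∈ lifted Δ d 3 3) : bdry p f {1, 2} = f {1, 2, 5} * ι ℝ (hom p 5) := by
  rw [mem_lifted] at hf
  rw [bdry_apply, Fin.sum_univ_eight]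
  rw [if_neg (show ¬ (0 : Fin 8) ∈ ({1, 2} : Finset (Fin 8)) by decide),
    (hf (insert 0 {1, 2})).2 (by decide),
    if_pos (show (1 : Fin 8) ∈ ({1, 2} : Finset (Fin 8)) by decide),
    if_pos (show (2 : Fin 8) ∈ ({1, 2} : Finset (Fin 8)) by decide),
    if_neg (show ¬ (3 : Fin 8) ∈ ({1, 2} : Finset (Fin 8)) by decide),
    (hf (insert 3 {1, 2})).2 (by decide),
    if_neg (show ¬ (4 : Fin 8) ∈ ({1, 2} : Finset (Fin 8)) by decide),
    (hf (insert 4 {1, 2})).2 (by decide),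
    if_neg (show ¬ (5 : Fin 8) ∈ ({1, 2} : Finset (Fin 8)) by decide),
    (show (insert 5 {1, 2} : Finset (Fin 8)) = {1, 2, 5} by decide),
    if_neg (show ¬ (6 : Fin 8) ∈ ({1, 2} : Finset (Fin 8)) by decide),
    (hf (insert 6 {1, 2})).2 (by decide),
    if_neg (show ¬ (7 : Fin 8) ∈ ({1, 2} : Finset (Fin 8)) by decide),
    (hf (insert 7 {1, 2})).2 (by decide)]
  simp only [zero_mul, add_zero, zero_add]

theorem edge36 {d : ℕ} (p : Fin 8 → Fin d → ℝ) (f : Finset (Fin 8) → Ext d)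
    (hf : f ∈ lifted Δ d 3 3) : bdry p f {3, 6} = f {2, 3, 6} * ι ℝ (hom p 2) := by
  rw [mem_lifted] at hf
  rw [bdry_apply, Fin.sum_univ_eight]
  rw [if_neg (show ¬ (0 : Fin 8) ∈ ({3, 6} : Finset (Fin 8)) by decide),
    (hf (insert 0 {3, 6})).2 (by decide),
    if_neg (show ¬ (1 : Fin 8) ∈ ({3, 6} : Finset (Fin 8)) by decide),
    (hf (insert 1 {3, 6})).2 (by decide),
    if_neg (show ¬ (2 : Fin 8) ∈ ({3, 6} : Finset (Fin 8)) by decide),
    if_pos (show (3 : Fin 8) ∈ ({3, 6} : Finset (Fin 8)) by decide),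
    if_neg (show ¬ (4 : Fin 8) ∈ ({3, 6} : Finset (Fin 8)) by decide),
    (hf (insert 4 {3, 6})).2 (by decide),
    if_neg (show ¬ (5 : Fin 8) ∈ ({3, 6} : Finset (Fin 8)) by decide),
    (hf (insert 5 {3, 6})).2 (by decide),
    if_pos (show (6 : Fin 8) ∈ ({3, 6} : Finset (Fin 8)) by decide),
    if_neg (show ¬ (7 : Fin 8) ∈ ({3, 6} : Finset (Fin 8)) by decide),
    (hf (insert 7 {3, 6})).2 (by decide)]
  simp only [zero_mul, add_zero, zero_add]

theorem edge26 {d : ℕ} (p : Fin 8 → Fin d → ℝ) (f : Finset (Fin 8) → Ext d)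
    (hf : f ∈ lifted Δ d 3 3) : bdry p f {2, 6} = f {2, 3, 6} * ι ℝ (hom p 3) := by
  rw [mem_lifted] at hf
  rw [bdry_apply, Fin.sum_univ_eight]
  rw [if_neg (show ¬ (0 : Fin 8) ∈ ({2, 6} : Finset (Fin 8)) by decide),
    (hf (insert 0 {2, 6})).2 (by decide),
    if_neg (show ¬ (1 : Fin 8) ∈ ({2, 6} : Finset (Fin 8)) by decide),
    (hf (insert 1 {2, 6})).2 (by decide),
    if_pos (show (2 : Fin 8) ∈ ({2, 6} : Finset (Fin 8)) by decide),
    if_neg (show ¬ (3 : Fin 8) ∈ ({2, 6} : Finset (Fin 8)) by decide),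
    (show (insert 3 {2, 6} : Finset (Fin 8)) = {2, 3, 6} by decide),
    if_neg (show ¬ (4 : Fin 8) ∈ ({2, 6} : Finset (Fin 8)) by decide),
    (hf (insert 4 {2, 6})).2 (by decide),
    if_neg (show ¬ (5 : Fin 8) ∈ ({2, 6} : Finset (Fin 8)) by decide),
    (hf (insert 5 {2, 6})).2 (by decide),
    if_pos (show (6 : Fin 8) ∈ ({2, 6} : Finset (Fin 8)) by decide),
    if_neg (show ¬ (7 : Fin 8) ∈ ({2, 6} : Finset (Fin 8)) by decide),
    (hf (insert 7 {2, 6})).2 (by decide)]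
  simp only [zero_mul, add_zero, zero_add]

theorem edge23 {d : ℕ} (p : Fin 8 → Fin d → ℝ) (f : Finset (Fin 8) → Ext d)
    (hf : f ∈ lifted Δ d 3 3) : bdry p f {2, 3} = f {2, 3, 6} * ι ℝ (hom p 6) := by
  rw [mem_lifted] at hf
  rw [bdry_apply, Fin.sum_univ_eight]
  rw [if_neg (show ¬ (0 : Fin 8) ∈ ({2, 3} : Finset (Fin 8)) by decide),
    (hf (insert 0 {2, 3})).2 (by decide),
    if_neg (show ¬ (1 : Fin 8) ∈ ({2, 3} : Finset (Fin 8)) by decide),
    (hf (insert 1 {2, 3})).2 (by decide),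
    if_pos (show (2 : Fin 8) ∈ ({2, 3} : Finset (Fin 8)) by decide),
    if_pos (show (3 : Fin 8) ∈ ({2, 3} : Finset (Fin 8)) by decide),
    if_neg (show ¬ (4 : Fin 8) ∈ ({2, 3} : Finset (Fin 8)) by decide),
    (hf (insert 4 {2, 3})).2 (by decide),
    if_neg (show ¬ (5 : Fin 8) ∈ ({2, 3} : Finset (Fin 8)) by decide),
    (hf (insert 5 {2, 3})).2 (by decide),
    if_neg (show ¬ (6 : Fin 8) ∈ ({2, 3} : Finset (Fin 8)) by decide),
    (show (insert 6 {2, 3} : Finset (Fin 8)) = {2, 3, 6} by decide),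
    if_neg (show ¬ (7 : Fin 8) ∈ ({2, 3} : Finset (Fin 8)) by decide),
    (hf (insert 7 {2, 3})).2 (by decide)]
  simp only [zero_mul, add_zero, zero_add]

theorem edge37 {d : ℕ} (p : Fin 8 → Fin d → ℝ) (f : Finset (Fin 8) → Ext d)
    (hf : f ∈ lifted Δ d 3 3) : bdry p f {3, 7} = f {0, 3, 7} * ι ℝ (hom p 0) := by
  rw [mem_lifted] at hf
  rw [bdry_apply, Fin.sum_univ_eight]
  rw [if_neg (show ¬ (0 : Fin 8) ∈ ({3, 7} : Finset (Fin 8)) by decide),
    if_neg (show ¬ (1 : Fin 8) ∈ ({3, 7} : Finset (Fin 8)) by decide),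
    (hf (insert 1 {3, 7})).2 (by decide),
    if_neg (show ¬ (2 : Fin 8) ∈ ({3, 7} : Finset (Fin 8)) by decide),
    (hf (insert 2 {3, 7})).2 (by decide),
    if_pos (show (3 : Fin 8) ∈ ({3, 7} : Finset (Fin 8)) by decide),
    if_neg (show ¬ (4 : Fin 8) ∈ ({3, 7} : Finset (Fin 8)) by decide),
    (hf (insert 4 {3, 7})).2 (by decide),
    if_neg (show ¬ (5 : Fin 8) ∈ ({3, 7} : Finset (Fin 8)) by decide),
    (hf (insert 5 {3, 7})).2 (by decide),
    if_neg (show ¬ (6 : Fin 8) ∈ ({3, 7} : Finset (Fin 8)) by decide),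
    (hf (insert 6 {3, 7})).2 (by decide),
    if_pos (show (7 : Fin 8) ∈ ({3, 7} : Finset (Fin 8)) by decide)]
  simp only [zero_mul, add_zero, zero_add]

theorem edge07 {d : ℕ} (p : Fin 8 → Fin d → ℝ) (f : Finset (Fin 8) → Ext d)
    (hf : f ∈ lifted Δ d 3 3) : bdry p f {0, 7} = f {0, 3, 7} * ι ℝ (hom p 3) := by
  rw [mem_lifted] at hf
  rw [bdry_apply, Fin.sum_univ_eight]
  rw [if_pos (show (0 : Fin 8) ∈ ({0, 7} : Finset (Fin 8)) by decide),
    if_neg (show ¬ (1 : Fin 8) ∈ ({0, 7} : Finset (Fin 8)) by decide),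
    (hf (insert 1 {0, 7})).2 (by decide),
    if_neg (show ¬ (2 : Fin 8) ∈ ({0, 7} : Finset (Fin 8)) by decide),
    (hf (insert 2 {0, 7})).2 (by decide),
    if_neg (show ¬ (3 : Fin 8) ∈ ({0, 7} : Finset (Fin 8)) by decide),
    (show (insert 3 {0, 7} : Finset (Fin 8)) = {0, 3, 7} by decide),
    if_neg (show ¬ (4 : Fin 8) ∈ ({0, 7} : Finset (Fin 8)) by decide),
    (hf (insert 4 {0, 7})).2 (by decide),
    if_neg (show ¬ (5 : Fin 8) ∈ ({0, 7} : Finset (Fin 8)) by decide),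
    (hf (insert 5 {0, 7})).2 (by decide),
    if_neg (show ¬ (6 : Fin 8) ∈ ({0, 7} : Finset (Fin 8)) by decide),
    (hf (insert 6 {0, 7})).2 (by decide),
    if_pos (show (7 : Fin 8) ∈ ({0, 7} : Finset (Fin 8)) by decide)]
  simp only [zero_mul, add_zero, zero_add]

theorem edge03 {d : ℕ} (p : Fin 8 → Fin d → ℝ) (f : Finset (Fin 8) → Ext d)
    (hf : f ∈ lifted Δ d 3 3) : bdry p f {0, 3} = f {0, 3, 7} * ι ℝ (hom p 7) := by
  rw [mem_lifted] at hf
  rw [bdry_apply, Fin.sum_univ_eight]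
  rw [if_pos (show (0 : Fin 8) ∈ ({0, 3} : Finset (Fin 8)) by decide),
    if_neg (show ¬ (1 : Fin 8) ∈ ({0, 3} : Finset (Fin 8)) by decide),
    (hf (insert 1 {0, 3})).2 (by decide),
    if_neg (show ¬ (2 : Fin 8) ∈ ({0, 3} : Finset (Fin 8)) by decide),
    (hf (insert 2 {0, 3})).2 (by decide),
    if_pos (show (3 : Fin 8) ∈ ({0, 3} : Finset (Fin 8)) by decide),
    if_neg (show ¬ (4 : Fin 8) ∈ ({0, 3} : Finset (Fin 8)) by decide),
    (hf (insert 4 {0, 3})).2 (by decide),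
    if_neg (show ¬ (5 : Fin 8) ∈ ({0, 3} : Finset (Fin 8)) by decide),
    (hf (insert 5 {0, 3})).2 (by decide),
    if_neg (show ¬ (6 : Fin 8) ∈ ({0, 3} : Finset (Fin 8)) by decide),
    (hf (insert 6 {0, 3})).2 (by decide),
    if_neg (show ¬ (7 : Fin 8) ∈ ({0, 3} : Finset (Fin 8)) by decide),
    (show (insert 7 {0, 3} : Finset (Fin 8)) = {0, 3, 7} by decide)]
  simp only [zero_mul, add_zero, zero_add]

set_option maxHeartbeats 4000000 in
theorem up : cycles Δ 3 P 2 ≤ boundaries Δ 3 P 2 := by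
  rintro f ⟨hL, hc⟩
  replace hc : ∀ σ, bdry P f σ * bar P σ = 0 := (mem_null _ _).1 hc
  replace hL : f ∈ lifted Δ 3 3 2 := hL
  have : ∀ σ, ∃ w, f σ = ι ℝ w := by
    intro σ
    by_cases h : σ ∈ Δ ∧ σ.card = 2 ∧ 2 ≤ 3
    · have := (((mem_lifted _ _ _ _).1 hL) σ).1 h
      simp only [Nat.add_one_sub_one, show 3 - 2 = 1 from rfl, pow_one, LinearMap.mem_range] at this
      obtain ⟨w, hw⟩ := this
      exact ⟨w, hw.symm⟩
    · exact ⟨0, by rw [(((mem_lifted _ _ _ _).1 hL) σ).2 h, map_zero]⟩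
  choose g hg using this
  have E0 := hc {0}
  rw [vert0 P f hL] at E0
  simp only [hg] at E0
  have E0_012 := congrArg (Φ (LinearMap.proj 0) (LinearMap.proj 1) (LinearMap.proj 2)) E0
  simp only [map_add, Φ_apply, map_zero, LinearMap.proj_apply] at E0_012
  simp [hP, -mul_eq_zero, -neg_eq_zero] at E0_012
  have E0_013 := congrArg (Φ (LinearMap.proj 0) (LinearMap.proj 1) (LinearMap.proj 3)) E0
  simp only [map_add, Φ_apply, map_zero, LinearMap.proj_apply] at E0_013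
  simp [hP, -mul_eq_zero, -neg_eq_zero] at E0_013
  have E0_023 := congrArg (Φ (LinearMap.proj 0) (LinearMap.proj 2) (LinearMap.proj 3)) E0
  simp only [map_add, Φ_apply, map_zero, LinearMap.proj_apply] at E0_023
  simp [hP, -mul_eq_zero, -neg_eq_zero] at E0_023
  have E0_123 := congrArg (Φ (LinearMap.proj 1) (LinearMap.proj 2) (LinearMap.proj 3)) E0
  simp only [map_add, Φ_apply, map_zero, LinearMap.proj_apply] at E0_123
  simp [hP, -mul_eq_zero, -neg_eq_zero] at E0_123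
  clear E0
  have E1 := hc {1}
  rw [vert1 P f hL] at E1
  simp only [hg] at E1
  have E1_012 := congrArg (Φ (LinearMap.proj 0) (LinearMap.proj 1) (LinearMap.proj 2)) E1
  simp only [map_add, Φ_apply, map_zero, LinearMap.proj_apply] at E1_012
  simp [hP, -mul_eq_zero, -neg_eq_zero] at E1_012
  have E1_013 := congrArg (Φ (LinearMap.proj 0) (LinearMap.proj 1) (LinearMap.proj 3)) E1
  simp only [map_add, Φ_apply, map_zero, LinearMap.proj_apply] at E1_013
  simp [hP, -mul_eq_zero, -neg_eq_zero] at E1_013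
  have E1_023 := congrArg (Φ (LinearMap.proj 0) (LinearMap.proj 2) (LinearMap.proj 3)) E1
  simp only [map_add, Φ_apply, map_zero, LinearMap.proj_apply] at E1_023
  simp [hP, -mul_eq_zero, -neg_eq_zero] at E1_023
  have E1_123 := congrArg (Φ (LinearMap.proj 1) (LinearMap.proj 2) (LinearMap.proj 3)) E1
  simp only [map_add, Φ_apply, map_zero, LinearMap.proj_apply] at E1_123
  simp [hP, -mul_eq_zero, -neg_eq_zero] at E1_123
  clear E1
  have E2 := hc {2}
  rw [vert2 P f hL] at E2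
  simp only [hg] at E2
  have E2_012 := congrArg (Φ (LinearMap.proj 0) (LinearMap.proj 1) (LinearMap.proj 2)) E2
  simp only [map_add, Φ_apply, map_zero, LinearMap.proj_apply] at E2_012
  simp [hP, -mul_eq_zero, -neg_eq_zero] at E2_012
  have E2_013 := congrArg (Φ (LinearMap.proj 0) (LinearMap.proj 1) (LinearMap.proj 3)) E2
  simp only [map_add, Φ_apply, map_zero, LinearMap.proj_apply] at E2_013
  simp [hP, -mul_eq_zero, -neg_eq_zero] at E2_013
  have E2_023 := congrArg (Φ (LinearMap.proj 0) (LinearMap.proj 2) (LinearMap.proj 3)) E2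
  simp only [map_add, Φ_apply, map_zero, LinearMap.proj_apply] at E2_023
  simp [hP, -mul_eq_zero, -neg_eq_zero] at E2_023
  have E2_123 := congrArg (Φ (LinearMap.proj 1) (LinearMap.proj 2) (LinearMap.proj 3)) E2
  simp only [map_add, Φ_apply, map_zero, LinearMap.proj_apply] at E2_123
  simp [hP, -mul_eq_zero, -neg_eq_zero] at E2_123
  clear E2
  have E3 := hc {3}
  rw [vert3 P f hL] at E3
  simp only [hg] at E3
  have E3_012 := congrArg (Φ (LinearMap.proj 0) (LinearMap.proj 1) (LinearMap.proj 2)) E3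
  simp only [map_add, Φ_apply, map_zero, LinearMap.proj_apply] at E3_012
  simp [hP, -mul_eq_zero, -neg_eq_zero] at E3_012
  have E3_013 := congrArg (Φ (LinearMap.proj 0) (LinearMap.proj 1) (LinearMap.proj 3)) E3
  simp only [map_add, Φ_apply, map_zero, LinearMap.proj_apply] at E3_013
  simp [hP, -mul_eq_zero, -neg_eq_zero] at E3_013
  have E3_023 := congrArg (Φ (LinearMap.proj 0) (LinearMap.proj 2) (LinearMap.proj 3)) E3
  simp only [map_add, Φ_apply, map_zero, LinearMap.proj_apply] at E3_023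
  simp [hP, -mul_eq_zero, -neg_eq_zero] at E3_023
  have E3_123 := congrArg (Φ (LinearMap.proj 1) (LinearMap.proj 2) (LinearMap.proj 3)) E3
  simp only [map_add, Φ_apply, map_zero, LinearMap.proj_apply] at E3_123
  simp [hP, -mul_eq_zero, -neg_eq_zero] at E3_123
  clear E3
  have E4 := hc {4}
  rw [vert4 P f hL] at E4
  simp only [hg] at E4
  have E4_012 := congrArg (Φ (LinearMap.proj 0) (LinearMap.proj 1) (LinearMap.proj 2)) E4
  simp only [map_add, Φ_apply, map_zero, LinearMap.proj_apply] at E4_012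
  simp [hP, -mul_eq_zero, -neg_eq_zero] at E4_012
  have E4_013 := congrArg (Φ (LinearMap.proj 0) (LinearMap.proj 1) (LinearMap.proj 3)) E4
  simp only [map_add, Φ_apply, map_zero, LinearMap.proj_apply] at E4_013
  simp [hP, -mul_eq_zero, -neg_eq_zero] at E4_013
  have E4_023 := congrArg (Φ (LinearMap.proj 0) (LinearMap.proj 2) (LinearMap.proj 3)) E4
  simp only [map_add, Φ_apply, map_zero, LinearMap.proj_apply] at E4_023
  simp [hP, -mul_eq_zero, -neg_eq_zero] at E4_023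
  have E4_123 := congrArg (Φ (LinearMap.proj 1) (LinearMap.proj 2) (LinearMap.proj 3)) E4
  simp only [map_add, Φ_apply, map_zero, LinearMap.proj_apply] at E4_123
  simp [hP, -mul_eq_zero, -neg_eq_zero] at E4_123
  clear E4
  have E5 := hc {5}
  rw [vert5 P f hL] at E5
  simp only [hg] at E5
  have E5_012 := congrArg (Φ (LinearMap.proj 0) (LinearMap.proj 1) (LinearMap.proj 2)) E5
  simp only [map_add, Φ_apply, map_zero, LinearMap.proj_apply] at E5_012
  simp [hP, -mul_eq_zero, -neg_eq_zero] at E5_012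
  have E5_013 := congrArg (Φ (LinearMap.proj 0) (LinearMap.proj 1) (LinearMap.proj 3)) E5
  simp only [map_add, Φ_apply, map_zero, LinearMap.proj_apply] at E5_013
  simp [hP, -mul_eq_zero, -neg_eq_zero] at E5_013
  have E5_023 := congrArg (Φ (LinearMap.proj 0) (LinearMap.proj 2) (LinearMap.proj 3)) E5
  simp only [map_add, Φ_apply, map_zero, LinearMap.proj_apply] at E5_023
  simp [hP, -mul_eq_zero, -neg_eq_zero] at E5_023
  have E5_123 := congrArg (Φ (LinearMap.proj 1) (LinearMap.proj 2) (LinearMap.proj 3)) E5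
  simp only [map_add, Φ_apply, map_zero, LinearMap.proj_apply] at E5_123
  simp [hP, -mul_eq_zero, -neg_eq_zero] at E5_123
  clear E5
  have E6 := hc {6}
  rw [vert6 P f hL] at E6
  simp only [hg] at E6
  have E6_012 := congrArg (Φ (LinearMap.proj 0) (LinearMap.proj 1) (LinearMap.proj 2)) E6
  simp only [map_add, Φ_apply, map_zero, LinearMap.proj_apply] at E6_012
  simp [hP, -mul_eq_zero, -neg_eq_zero] at E6_012
  have E6_013 := congrArg (Φ (LinearMap.proj 0) (LinearMap.proj 1) (LinearMap.proj 3)) E6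
  simp only [map_add, Φ_apply, map_zero, LinearMap.proj_apply] at E6_013
  simp [hP, -mul_eq_zero, -neg_eq_zero] at E6_013
  have E6_023 := congrArg (Φ (LinearMap.proj 0) (LinearMap.proj 2) (LinearMap.proj 3)) E6
  simp only [map_add, Φ_apply, map_zero, LinearMap.proj_apply] at E6_023
  simp [hP, -mul_eq_zero, -neg_eq_zero] at E6_023
  have E6_123 := congrArg (Φ (LinearMap.proj 1) (LinearMap.proj 2) (LinearMap.proj 3)) E6
  simp only [map_add, Φ_apply, map_zero, LinearMap.proj_apply] at E6_123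
  simp [hP, -mul_eq_zero, -neg_eq_zero] at E6_123
  clear E6
  have E7 := hc {7}
  rw [vert7 P f hL] at E7
  simp only [hg] at E7
  have E7_012 := congrArg (Φ (LinearMap.proj 0) (LinearMap.proj 1) (LinearMap.proj 2)) E7
  simp only [map_add, Φ_apply, map_zero, LinearMap.proj_apply] at E7_012
  simp [hP, -mul_eq_zero, -neg_eq_zero] at E7_012
  have E7_013 := congrArg (Φ (LinearMap.proj 0) (LinearMap.proj 1) (LinearMap.proj 3)) E7
  simp only [map_add, Φ_apply, map_zero, LinearMap.proj_apply] at E7_013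
  simp [hP, -mul_eq_zero, -neg_eq_zero] at E7_013
  have E7_023 := congrArg (Φ (LinearMap.proj 0) (LinearMap.proj 2) (LinearMap.proj 3)) E7
  simp only [map_add, Φ_apply, map_zero, LinearMap.proj_apply] at E7_023
  simp [hP, -mul_eq_zero, -neg_eq_zero] at E7_023
  have E7_123 := congrArg (Φ (LinearMap.proj 1) (LinearMap.proj 2) (LinearMap.proj 3)) E7
  simp only [map_add, Φ_apply, map_zero, LinearMap.proj_apply] at E7_123
  simp [hP, -mul_eq_zero, -neg_eq_zero] at E7_123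
  clear E7
  let t0 : ℝ := (1/1:ℝ) * g {0, 4} 0
  let t1 : ℝ := (1/1:ℝ) * g {1, 5} 1
  let t2 : ℝ := (-2/1:ℝ) * g {2, 6} 0 + (1/1:ℝ) * g {2, 6} 1 + (1/1:ℝ) * g {2, 6} 2
  let t3 : ℝ := (1/1:ℝ) * g {0, 7} 0 + (1/1:ℝ) * g {0, 7} 1
  have z14 : ι ℝ (g {1, 4} - t0 • hom P 0) * (ι ℝ (hom P 1) * ι ℝ (hom P 4)) = 0 := by
    refine zero_of_span _ _ _ ((1/1:ℝ) * (g {1, 4} - t0 • hom P 0) 0) ((-1/1:ℝ) * (g {1, 4} - t0 • hom P 0) 1) ?_
    funext i; fin_cases i <;> simp [hP, t0] <;> linarith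
  have z04 : ι ℝ (g {0, 4} - t0 • hom P 1) * (ι ℝ (hom P 0) * ι ℝ (hom P 4)) = 0 := by
    refine zero_of_span _ _ _ ((1/1:ℝ) * (g {0, 4} - t0 • hom P 1) 1 + (1/1:ℝ) * (g {0, 4} - t0 • hom P 1) 3) ((-1/1:ℝ) * (g {0, 4} - t0 • hom P 1) 1) ?_
    funext i; fin_cases i <;> simp [hP, t0] <;> linarith
  have z01 : ι ℝ (g {0, 1} - t0 • hom P 4) * (ι ℝ (hom P 0) * ι ℝ (hom P 1)) = 0 := by
    refine zero_of_span _ _ _ ((-1/1:ℝ) * (g {0, 1} - t0 • hom P 4) 0 + (1/1:ℝ) * (g {0, 1} - t0 • hom P 4) 3) ((1/1:ℝ) * (g {0, 1} - t0 • hom P 4) 0) ?_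
    funext i; fin_cases i <;> simp [hP, t0] <;> linarith
  have z25 : ι ℝ (g {2, 5} - t1 • hom P 1) * (ι ℝ (hom P 2) * ι ℝ (hom P 5)) = 0 := by
    refine zero_of_span _ _ _ ((1/1:ℝ) * (g {2, 5} - t1 • hom P 1) 1) ((1/2:ℝ) * (g {2, 5} - t1 • hom P 1) 0 + (-1/2:ℝ) * (g {2, 5} - t1 • hom P 1) 1) ?_
    funext i; fin_cases i <;> simp [hP, t1] <;> linarith
  have z15 : ι ℝ (g {1, 5} - t1 • hom P 2) * (ι ℝ (hom P 1) * ι ℝ (hom P 5)) = 0 := by
    refine zero_of_span _ _ _ ((-1/1:ℝ) * (g {1, 5} - t1 • hom P 2) 0 + (2/1:ℝ) * (g {1, 5} - t1 • hom P 2) 3) ((1/1:ℝ) * (g {1, 5} - t1 • hom P 2) 0 + (-1/1:ℝ) * (g {1, 5} - t1 • hom P 2) 3) ?_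
    funext i; fin_cases i <;> simp [hP, t1] <;> linarith
  have z12 : ι ℝ (g {1, 2} - t1 • hom P 5) * (ι ℝ (hom P 1) * ι ℝ (hom P 2)) = 0 := by
    refine zero_of_span _ _ _ ((1/1:ℝ) * (g {1, 2} - t1 • hom P 5) 0 + (-1/1:ℝ) * (g {1, 2} - t1 • hom P 5) 1) ((1/1:ℝ) * (g {1, 2} - t1 • hom P 5) 1) ?_
    funext i; fin_cases i <;> simp [hP, t1] <;> linarith
  have z36 : ι ℝ (g {3, 6} - t2 • hom P 2) * (ι ℝ (hom P 3) * ι ℝ (hom P 6)) = 0 := by
    refine zero_of_span _ _ _ ((-2/1:ℝ) * (g {3, 6} - t2 • hom P 2) 0 + (1/1:ℝ) * (g {3, 6} - t2 • hom P 2) 1) ((1/1:ℝ) * (g {3, 6} - t2 • hom P 2) 0) ?_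
    funext i; fin_cases i <;> simp [hP, t2] <;> linarith
  have z26 : ι ℝ (g {2, 6} - t2 • hom P 3) * (ι ℝ (hom P 2) * ι ℝ (hom P 6)) = 0 := by
    refine zero_of_span _ _ _ ((2/1:ℝ) * (g {2, 6} - t2 • hom P 3) 0 + (-1/1:ℝ) * (g {2, 6} - t2 • hom P 3) 1) ((-1/1:ℝ) * (g {2, 6} - t2 • hom P 3) 0 + (1/1:ℝ) * (g {2, 6} - t2 • hom P 3) 1) ?_
    funext i; fin_cases i <;> simp [hP, t2] <;> linarith
  have z23 : ι ℝ (g {2, 3} - t2 • hom P 6) * (ι ℝ (hom P 2) * ι ℝ (hom P 3)) = 0 := by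
    refine zero_of_span _ _ _ ((1/1:ℝ) * (g {2, 3} - t2 • hom P 6) 0) ((-1/1:ℝ) * (g {2, 3} - t2 • hom P 6) 0 + (1/1:ℝ) * (g {2, 3} - t2 • hom P 6) 1) ?_
    funext i; fin_cases i <;> simp [hP, t2] <;> linarith
  have z37 : ι ℝ (g {3, 7} - t3 • hom P 0) * (ι ℝ (hom P 3) * ι ℝ (hom P 7)) = 0 := by
    refine zero_of_span _ _ _ ((1/1:ℝ) * (g {3, 7} - t3 • hom P 0) 0 + (1/1:ℝ) * (g {3, 7} - t3 • hom P 0) 1) ((-1/1:ℝ) * (g {3, 7} - t3 • hom P 0) 0) ?_
    funext i; fin_cases i <;> simp [hP, t3] <;> linarith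
  have z07 : ι ℝ (g {0, 7} - t3 • hom P 3) * (ι ℝ (hom P 0) * ι ℝ (hom P 7)) = 0 := by
    refine zero_of_span _ _ _ ((1/1:ℝ) * (g {0, 7} - t3 • hom P 3) 0 + (1/1:ℝ) * (g {0, 7} - t3 • hom P 3) 3) ((-1/1:ℝ) * (g {0, 7} - t3 • hom P 3) 0) ?_
    funext i; fin_cases i <;> simp [hP, t3] <;> linarith
  have z03 : ι ℝ (g {0, 3} - t3 • hom P 7) * (ι ℝ (hom P 0) * ι ℝ (hom P 3)) = 0 := by
    refine zero_of_span _ _ _ ((-1/1:ℝ) * (g {0, 3} - t3 • hom P 7) 1 + (1/1:ℝ) * (g {0, 3} - t3 • hom P 7) 3) ((1/1:ℝ) * (g {0, 3} - t3 • hom P 7) 1) ?_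
    funext i; fin_cases i <;> simp [hP, t3] <;> linarith
  let G : Finset (Fin 8) → Ext 3 := fun σ =>
    if σ = {0, 1, 4} then algebraMap ℝ _ t0 else if σ = {1, 2, 5} then algebraMap ℝ _ t1
    else if σ = {2, 3, 6} then algebraMap ℝ _ t2 else if σ = {0, 3, 7} then algebraMap ℝ _ t3 else 0
  have hG0 : G {0, 1, 4} = algebraMap ℝ _ t0 := if_pos rfl
  have hG1 : G {1, 2, 5} = algebraMap ℝ _ t1 := by
    simp only [G]; rw [if_neg (by decide), if_pos trivial]
  have hG2 : G {2, 3, 6} = algebraMap ℝ _ t2 := by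
    simp only [G]; rw [if_neg (by decide), if_neg (by decide), if_pos trivial]
  have hG3 : G {0, 3, 7} = algebraMap ℝ _ t3 := by
    simp only [G]; rw [if_neg (by decide), if_neg (by decide), if_neg (by decide), if_pos trivial]
  have hG : G ∈ lifted Δ 3 3 3 := by
    rw [mem_lifted]
    intro σ
    constructor
    · intro _
      simp only [G, Nat.sub_self, pow_zero]
      split_ifs
      · exact Submodule.algebraMap_mem _
      · exact Submodule.algebraMap_mem _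
      · exact Submodule.algebraMap_mem _
      · exact Submodule.algebraMap_mem _
      · exact Submodule.zero_mem _
    · intro h
      simp only [G]
      rw [if_neg, if_neg, if_neg, if_neg] <;> (rintro rfl; exact h (by decide))
  have hD := lifted_bdry P G hG
  have e : f = (f - bdry P G) + bdry P G := by abel
  rw [e]
  refine Submodule.add_mem_sup ⟨Submodule.sub_mem _ hL hD, ?_⟩ ⟨G, hG, rfl⟩
  refine (mem_null _ _).2 fun σ => ?_
  by_cases h : σ ∈ Δ ∧ σ.card = 2 ∧ 2 ≤ 3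
  · rw [Pi.sub_apply]
    rcases edges σ h.1 h.2.1 with h | h | h | h | h | h | h | h | h | h | h | h <;> subst h
    · rw [edge01 P G hG, hG0, hg, bar_two _ _ _ (by decide), ← Algebra.smul_def, ← map_smul,
          ← map_sub]
      exact z01
    · rw [edge04 P G hG, hG0, hg, bar_two _ _ _ (by decide), ← Algebra.smul_def, ← map_smul,
          ← map_sub]
      exact z04
    · rw [edge14 P G hG, hG0, hg, bar_two _ _ _ (by decide), ← Algebra.smul_def, ← map_smul,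
          ← map_sub]
      exact z14
    · rw [edge12 P G hG, hG1, hg, bar_two _ _ _ (by decide), ← Algebra.smul_def, ← map_smul,
          ← map_sub]
      exact z12
    · rw [edge15 P G hG, hG1, hg, bar_two _ _ _ (by decide), ← Algebra.smul_def, ← map_smul,
          ← map_sub]
      exact z15
    · rw [edge25 P G hG, hG1, hg, bar_two _ _ _ (by decide), ← Algebra.smul_def, ← map_smul,
          ← map_sub]
      exact z25
    · rw [edge23 P G hG, hG2, hg, bar_two _ _ _ (by decide), ← Algebra.smul_def, ← map_smul,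
          ← map_sub]
      exact z23
    · rw [edge26 P G hG, hG2, hg, bar_two _ _ _ (by decide), ← Algebra.smul_def, ← map_smul,
          ← map_sub]
      exact z26
    · rw [edge36 P G hG, hG2, hg, bar_two _ _ _ (by decide), ← Algebra.smul_def, ← map_smul,
          ← map_sub]
      exact z36
    · rw [edge03 P G hG, hG3, hg, bar_two _ _ _ (by decide), ← Algebra.smul_def, ← map_smul,
          ← map_sub]
      exact z03
    · rw [edge07 P G hG, hG3, hg, bar_two _ _ _ (by decide), ← Algebra.smul_def, ← map_smul,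
          ← map_sub]
      exact z07
    · rw [edge37 P G hG, hG3, hg, bar_two _ _ _ (by decide), ← Algebra.smul_def, ← map_smul,
          ← map_sub]
      exact z37
  · rw [Pi.sub_apply, (((mem_lifted _ _ _ _).1 hL) σ).2 h, (((mem_lifted _ _ _ _).1 hD) σ).2 h,
      sub_zero, zero_mul]

noncomputable def cyc : Finset (Fin 8) → Ext 2 := fun σ =>
  if σ = {0, 1} then ι ℝ (hom (proj P) 3) else if σ = {0, 3} then ι ℝ (hom (proj P) 1)
  else if σ = {1, 2} then ι ℝ (hom (proj P) 3) else if σ = {2, 3} then ι ℝ (hom (proj P) 1) else 0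

theorem cyc_lifted : cyc ∈ lifted Δ 2 3 2 := by
  rw [mem_lifted]
  intro σ
  constructor
  · intro _
    simp only [cyc, show 3 - 2 = 1 from rfl, pow_one]
    split_ifs
    · exact ⟨_, rfl⟩
    · exact ⟨_, rfl⟩
    · exact ⟨_, rfl⟩
    · exact ⟨_, rfl⟩
    · exact Submodule.zero_mem _
  · intro h
    simp only [cyc]
    rw [if_neg, if_neg, if_neg, if_neg] <;> (rintro rfl; exact h (by decide))

theorem c01 : cyc {0, 1} = ι ℝ (hom (proj P) 3) := if_pos rfl
theorem c03 : cyc {0, 3} = ι ℝ (hom (proj P) 1) := by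
  simp only [cyc]; rw [if_neg (by decide), if_pos trivial]
theorem c12 : cyc {1, 2} = ι ℝ (hom (proj P) 3) := by
  simp only [cyc]; rw [if_neg (by decide), if_neg (by decide), if_pos trivial]
theorem c23 : cyc {2, 3} = ι ℝ (hom (proj P) 1) := by
  simp only [cyc]; rw [if_neg (by decide), if_neg (by decide), if_neg (by decide), if_pos trivial]
theorem c0 (σ : Finset (Fin 8)) (h : σ ≠ {0, 1} ∧ σ ≠ {0, 3} ∧ σ ≠ {1, 2} ∧ σ ≠ {2, 3}) :
    cyc σ = 0 := by
  simp only [cyc]; rw [if_neg h.1, if_neg h.2.1, if_neg h.2.2.1, if_neg h.2.2.2]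

theorem hQ2 : ι ℝ (hom (proj P) 2) =
    ι ℝ (hom (proj P) 1) + ι ℝ (hom (proj P) 3) - ι ℝ (hom (proj P) 0) := by
  rw [← map_add, ← map_sub]; congr 1
  funext i; fin_cases i <;> simp [hQ] <;> norm_num

theorem cyc_cycle : cyc ∈ cycles Δ 3 (proj P) 2 := by
  refine ⟨cyc_lifted, (mem_null _ _).2 fun σ => ?_⟩
  by_cases h : σ.card = 1
  · obtain ⟨v, rfl⟩ := Finset.card_eq_one.1 h
    fin_cases v
    · refine (vert0 _ _ cyc_lifted).trans ?_
      rw [c01, c03, c0 {0, 4} (by decide), c0 {0, 7} (by decide), swap (hom (proj P) 3)]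
      simp
    · refine (vert1 _ _ cyc_lifted).trans ?_
      rw [c01, c12, c0 {1, 4} (by decide), c0 {1, 5} (by decide), hQ2]
      simp [add_mul, sub_mul, mul_add, mul_sub, sq']
    · refine (vert2 _ _ cyc_lifted).trans ?_
      rw [c12, c23, c0 {2, 5} (by decide), c0 {2, 6} (by decide), swap (hom (proj P) 3)]
      simp
    · refine (vert3 _ _ cyc_lifted).trans ?_
      rw [c03, c23, c0 {3, 6} (by decide), c0 {3, 7} (by decide), hQ2]
      simp [add_mul, sub_mul, mul_add, mul_sub, sq']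
    · refine (vert4 _ _ cyc_lifted).trans ?_
      rw [c0 {0, 4} (by decide), c0 {1, 4} (by decide)]; simp
    · refine (vert5 _ _ cyc_lifted).trans ?_
      rw [c0 {1, 5} (by decide), c0 {2, 5} (by decide)]; simp
    · refine (vert6 _ _ cyc_lifted).trans ?_
      rw [c0 {2, 6} (by decide), c0 {3, 6} (by decide)]; simp
    · refine (vert7 _ _ cyc_lifted).trans ?_
      rw [c0 {0, 7} (by decide), c0 {3, 7} (by decide)]; simp
  · rw [bdry_apply, Finset.sum_eq_zero, zero_mul]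
    intro x _
    split_ifs with hx
    · rfl
    · rw [(((mem_lifted _ _ _ _).1 cyc_lifted) _).2, zero_mul]
      rintro ⟨_, h2, _⟩
      rw [Finset.card_insert_of_notMem hx] at h2
      omega

theorem cyc_not : cyc ∉ boundaries Δ 3 (proj P) 2 := by
  intro h
  obtain ⟨n, ⟨_, hn⟩, _, ⟨G, hG, rfl⟩, e⟩ := Submodule.mem_sup.1 h
  replace hn := (mem_null _ _).1 hn
  have ht := (((mem_lifted _ _ _ _).1 hG) {0, 1, 4}).1 (by decide)
  simp only [Nat.sub_self, pow_zero, Submodule.mem_one] at ht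
  obtain ⟨t, ht⟩ := ht
  have e1 := congrArg (fun f => f {0, 4} * bar (proj P) {0, 4}) e
  have e2 := congrArg (fun f => f {0, 1} * bar (proj P) {0, 1}) e
  simp only [Pi.add_apply, add_mul, hn, zero_add] at e1 e2
  rw [edge04 _ G hG, c0 _ (by decide), ← ht, bar_two _ _ _ (by decide), ← Algebra.smul_def,
    smul_mul_assoc, zero_mul] at e1
  rw [edge01 _ G hG, c01, ← ht, bar_two _ _ _ (by decide), ← Algebra.smul_def,
    smul_mul_assoc] at e2
  have f1 := congrArg (Φ (LinearMap.proj 0) (LinearMap.proj 1) (LinearMap.proj 2)) e1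
  have f2 := congrArg (Φ (LinearMap.proj 0) (LinearMap.proj 1) (LinearMap.proj 2)) e2
  simp only [map_smul, Φ_apply, map_zero, LinearMap.proj_apply] at f1 f2
  simp [hQ] at f1 f2
  rw [f1] at f2
  norm_num at f2

theorem aff {d : ℕ} (q : Fin 8 → Fin d → ℝ) (σ : Finset (Fin 8))
    (h : ∀ w : Fin 8 → ℝ, (∀ v, v ∉ σ → w v = 0) → ∑ v, w v = 0 → ∑ v, w v • q v = 0 →
      ∀ v, w v = 0) : AffineIndependent ℝ (fun v : σ => q v) := by
  classical
  rw [affineIndependent_iff]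
  intro s w h1 h2 e he
  let w' : Fin 8 → ℝ := fun v => if hv : v ∈ σ then (if (⟨v, hv⟩ : σ) ∈ s then w ⟨v, hv⟩ else 0) else 0
  have key : ∀ {M : Type} [AddCommGroup M] [Module ℝ M] (u : Fin 8 → M),
      ∑ v, w' v • u v = ∑ e ∈ s, w e • u e := by
    intro M _ _ u
    rw [← Finset.sum_subset (Finset.subset_univ σ) (fun v _ hv => by simp [w', hv]),
      ← Finset.sum_coe_sort σ, ← Finset.sum_subset (Finset.subset_univ s)
        (fun v _ hv => by simp [w', hv])]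
    exact Finset.sum_congr rfl fun v hv => by simp [w', hv]
  have := h w' (fun v hv => by simp [w', hv])
    (by have := key (fun _ => (1:ℝ)); simpa [h1] using this) (by rw [key, h2]) e
  simpa [w', he] using this

theorem affQ (σ : Finset (Fin 8)) (hσ : σ ∈ Δ) (w : Fin 8 → ℝ) (h0 : ∀ v, v ∉ σ → w v = 0)
    (h1 : ∑ v, w v = 0) (h2 : ∑ v, w v • proj P v = 0) : ∀ v, w v = 0 := by
  have a0 := congrFun h2 0
  have a1 := congrFun h2 1
  have hp : proj P = ![![0,0], ![1,0], ![1,1], ![0,1], ![0,-1], ![2,0], ![1,2], ![-1,1]] := by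
    funext v i; fin_cases v <;> fin_cases i <;> rfl
  simp [hp, Fin.sum_univ_eight] at a0 a1
  rw [Fin.sum_univ_eight] at h1
  rw [mem_Δ] at hσ
  rcases hσ with h | h | h | h
  · have b : ∀ v, v ∉ ({0, 1, 4} : Finset (Fin 8)) → w v = 0 := fun v hv => h0 v fun x => hv (h x)
    have := b 2 (by decide); have := b 3 (by decide); have := b 5 (by decide)
    have := b 6 (by decide); have := b 7 (by decide)
    intro v; fin_cases v <;> simp <;> linarith
  · have b : ∀ v, v ∉ ({1, 2, 5} : Finset (Fin 8)) → w v = 0 := fun v hv => h0 v fun x => hv (h x)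
    have := b 0 (by decide); have := b 3 (by decide); have := b 4 (by decide)
    have := b 6 (by decide); have := b 7 (by decide)
    intro v; fin_cases v <;> simp <;> linarith
  · have b : ∀ v, v ∉ ({2, 3, 6} : Finset (Fin 8)) → w v = 0 := fun v hv => h0 v fun x => hv (h x)
    have := b 0 (by decide); have := b 1 (by decide); have := b 4 (by decide)
    have := b 5 (by decide); have := b 7 (by decide)
    intro v; fin_cases v <;> simp <;> linarith
  · have b : ∀ v, v ∉ ({0, 3, 7} : Finset (Fin 8)) → w v = 0 := fun v hv => h0 v fun x => hv (h x)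
    have := b 1 (by decide); have := b 2 (by decide); have := b 4 (by decide)
    have := b 5 (by decide); have := b 6 (by decide)
    intro v; fin_cases v <;> simp <;> linarith

theorem result : ∃ (Δ : Finset (Finset (Fin 8))) (p : Fin 8 → Fin 3 → ℝ),
    ∅ ∈ Δ ∧ (∀ σ ∈ Δ, ∀ τ ⊆ σ, τ ∈ Δ) ∧ (∀ v, {v} ∈ Δ) ∧
    (∀ σ ∈ Δ, ∃ τ ∈ Δ, σ ⊆ τ ∧ τ.card = 3) ∧ (∀ σ ∈ Δ, σ.card ≤ 3) ∧
    (∀ σ ∈ Δ, AffineIndependent ℝ (fun v : σ => p v)) ∧
    (∀ σ ∈ Δ, AffineIndependent ℝ (fun v : σ => proj p v)) ∧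
    betti Δ 3 p 2 < betti Δ 3 (proj p) 2 := by
  refine ⟨Δ, P, by decide, ?_, by decide, ?_, ?_, ?_, ?_, ?_⟩
  · intro σ h τ hs
    rw [mem_Δ] at h ⊢
    rcases h with h | h | h | h
    · exact Or.inl (hs.trans h)
    · exact Or.inr (Or.inl (hs.trans h))
    · exact Or.inr (Or.inr (Or.inl (hs.trans h)))
    · exact Or.inr (Or.inr (Or.inr (hs.trans h)))
  · intro σ h
    rw [mem_Δ] at h
    rcases h with h | h | h | h <;> exact ⟨_, by decide, h, by decide⟩
  · intro σ h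
    rw [mem_Δ] at h
    rcases h with h | h | h | h <;> exact (Finset.card_le_card h).trans (by decide)
  · intro σ h
    refine aff _ σ fun w h0 h1 h2 => affQ σ h w h0 h1 ?_
    funext i
    have := congrFun h2 i.castSucc
    simpa [proj, Fin.init] using this
  · intro σ h
    exact aff _ σ (affQ σ h)
  · have h0 : betti Δ 3 P 2 = 0 := by
      rw [betti_eq]
      have : (boundaries Δ 3 P 2).submoduleOf (cycles Δ 3 P 2) = ⊤ := by
        rw [eq_top_iff]; intro x _; exact up x.2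
      rw [this]
      exact Module.finrank_zero_of_subsingleton
    rw [h0]
    rw [betti_eq]
    have : Module.Finite ℝ (cycles Δ 3 (proj P) 2) :=
      Module.Finite.of_injective (Submodule.inclusion (inf_le_left : cycles Δ 3 (proj P) 2 ≤ _))
        (Submodule.inclusion_injective _)
    rw [Module.finrank_pos_iff_exists_ne_zero]
    refine ⟨Submodule.Quotient.mk ⟨cyc, cyc_cycle⟩, fun h => cyc_not ?_⟩
    have h' := (Submodule.Quotient.mk_eq_zero _).1 h
    exact h'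

end Pool.Agent.Results.MP_7bb607_co.Counter
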